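import Pool.Agent.W5h87.ZInt.Circle
import Pool.Agent.W5h87.ZInt.Defs

/-!
# The main theorem
-/

set_option autoImplicit false
set_option linter.unusedSectionVars false

open scoped Matrix ENNReal
open Filter Topology

namespace Pool.Agent.W5h87.ZInt

open Pool.Agent.H496R3.ZS (Ell IsAmenable)
open Pool.Agent.H919R4.ZS (FinRes eps eps_add eps_neg eps_sub eps_smul eps_zsmul eps_single eps_d
  exists_lift augm augm_single d_mul_d toRed)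
open Pool.Agent.H919R4.AS

noncomputable section

variable {G : Type} [Group G]

/-- degree one, with an estimate -/
theorem H1K (X : FinRes G) {K : ℝ} (C : Subgroup G) (hV : ∀ m : Mult G (G ⧸ C), VanK K X m)
    (hG : Infinite (G ⧸ C)) (z : Fin (X.n 1) → (G ⧸ C →₀ ℤ)) (hz : cobdZ X (G ⧸ C) 1 z = 0) :
    ∃ y, cobdZ X (G ⧸ C) 0 y = z ∧ ‖fun j => hat (y j)‖ ≤ K * ‖fun j => hat (z j)‖ := by
  obtain ⟨y, hy⟩ := H1 X (fun m => (hV m).van) hG z hz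
  refine ⟨y, hy, ?_⟩
  obtain ⟨v, hv, hvn⟩ := (hV (triv G (G ⧸ C))).h1 (fun j => hat (z j)) (by
    rw [act_hat]
    change (fun k => hat (cobdZ X (G ⧸ C) 1 z k)) = 0
    rw [hz]
    funext i
    exact hat_zero)
  have e1 : act ((X.d 0).map (LL (triv G (G ⧸ C)))) (fun j => hat (y j)) =
        fun k => hat (cobdZ X (G ⧸ C) 0 y k) := act_hat (X.d 0) y
  have e2 : (fun j => hat (y j)) = v := by
    rw [← sub_eq_zero]
    refine (hV (triv G (G ⧸ C))).h0 _ ?_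
    have e3 : ∀ u w : Fin (X.n 0) → Ell (G ⧸ C),
        act ((X.d 0).map (LL (triv G (G ⧸ C)))) (u - w) =
        act ((X.d 0).map (LL (triv G (G ⧸ C)))) u - act ((X.d 0).map (LL (triv G (G ⧸ C)))) w := by
      intro u w
      funext i
      simp [act]
    rw [e3, e1, hy, hv, sub_self]
  rw [e2]
  exact hvn

variable {Z : Type}

lemma nsq_eq {k : ℕ} (y : Fin k → (Z →₀ ℤ)) : ((nsq y : ℤ) : ℝ) = ∑ j, ‖hat (y j)‖ ^ 2 := by
  rw [nsq, Int.cast_sum]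
  exact Finset.sum_congr rfl fun j _ => (norm_hat_sq (y j)).symm

lemma nsq_nonneg {k : ℕ} (y : Fin k → (Z →₀ ℤ)) : 0 ≤ nsq y :=
  Finset.sum_nonneg fun _ _ => Finset.sum_nonneg fun _ _ => sq_nonneg _

lemma norm_sq_le_nsq {k : ℕ} (y : Fin k → (Z →₀ ℤ)) :
    ‖fun j => hat (y j)‖ ^ 2 ≤ ((nsq y : ℤ) : ℝ) := by
  have h0 : (0 : ℝ) ≤ ((nsq y : ℤ) : ℝ) := by exact_mod_cast nsq_nonneg y
  have h1 : ‖fun j => hat (y j)‖ ≤ Real.sqrt ((nsq y : ℤ) : ℝ) := by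
    refine (pi_norm_le_iff_of_nonneg (Real.sqrt_nonneg _)).2 fun i => ?_
    refine Real.le_sqrt_of_sq_le ?_
    rw [nsq_eq]
    exact Finset.single_le_sum (f := fun j => ‖hat (y j)‖ ^ 2)
      (fun j _ => sq_nonneg _) (Finset.mem_univ i)
  calc ‖fun j => hat (y j)‖ ^ 2 ≤ (Real.sqrt ((nsq y : ℤ) : ℝ)) ^ 2 :=
        pow_le_pow_left₀ (norm_nonneg _) h1 2
    _ = _ := Real.sq_sqrt h0

lemma nsq_le {k : ℕ} (y : Fin k → (Z →₀ ℤ)) :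
    ((nsq y : ℤ) : ℝ) ≤ (k : ℝ) * ‖fun j => hat (y j)‖ ^ 2 := by
  rw [nsq_eq]
  have h1 : ∀ j ∈ (Finset.univ : Finset (Fin k)), ‖hat (y j)‖ ^ 2 ≤ ‖fun j => hat (y j)‖ ^ 2 :=
    fun j _ => pow_le_pow_left₀ (norm_nonneg _) (norm_le_pi_norm (fun j => hat (y j)) j) 2
  refine (Finset.sum_le_sum h1).trans ?_
  rw [Finset.sum_const, Finset.card_univ, Fintype.card_fin, nsmul_eq_mul]

lemma nsq_le_of_norm_le {k l : ℕ} (y : Fin k → (Z →₀ ℤ)) (z : Fin l → (Z →₀ ℤ)) {L : ℝ}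
    {N : ℕ} (hN : (k : ℝ) * L ^ 2 ≤ N) (h : ‖fun j => hat (y j)‖ ≤ L * ‖fun j => hat (z j)‖) :
    nsq y ≤ N * nsq z := by
  have h1 : ((nsq y : ℤ) : ℝ) ≤ ((N * nsq z : ℤ) : ℝ) := by
    push_cast
    have h2 := nsq_le y
    have h3 := norm_sq_le_nsq z
    have h4 : ‖fun j => hat (y j)‖ ^ 2 ≤ L ^ 2 * ‖fun j => hat (z j)‖ ^ 2 := by
      rw [← mul_pow]
      exact pow_le_pow_left₀ (norm_nonneg _) h 2
    have hk : (0 : ℝ) ≤ k := Nat.cast_nonneg k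
    calc ((nsq y : ℤ) : ℝ) ≤ (k : ℝ) * ‖fun j => hat (y j)‖ ^ 2 := h2
      _ ≤ (k : ℝ) * (L ^ 2 * ‖fun j => hat (z j)‖ ^ 2) := mul_le_mul_of_nonneg_left h4 hk
      _ = ((k : ℝ) * L ^ 2) * ‖fun j => hat (z j)‖ ^ 2 := by ring
      _ ≤ (N : ℝ) * ‖fun j => hat (z j)‖ ^ 2 := mul_le_mul_of_nonneg_right hN (sq_nonneg _)
      _ ≤ (N : ℝ) * ((nsq z : ℤ) : ℝ) := mul_le_mul_of_nonneg_left h3 (Nat.cast_nonneg N)
  exact_mod_cast h1

/-- the uniform isoperimetric inequality -/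
theorem iso (X : FinRes G) (hs : ∀ i ≤ 2, Subsingleton (X.homology (toRed G) i)) :
    ∃ N : ℕ, ∀ C : Subgroup G, IsAmenable C → Infinite (G ⧸ C) →
      (∀ z, cobdZ X (G ⧸ C) 0 z = 0 → z = 0) ∧
      (∀ z, cobdZ X (G ⧸ C) 1 z = 0 → ∃ y, cobdZ X (G ⧸ C) 0 y = z ∧ nsq y ≤ N * nsq z) ∧
      (∀ z, cobdZ X (G ⧸ C) 2 z = 0 → ∃ y, cobdZ X (G ⧸ C) 1 y = z ∧ nsq y ≤ N * nsq z) := by
  obtain ⟨K, hK, hV⟩ := exists_vanK X (hs 0 (by norm_num)) (hs 1 (by norm_num)) (hs 2 le_rfl)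
  obtain ⟨L, hL, hL2⟩ := H2K X hK
  obtain ⟨N, hN⟩ := exists_nat_ge ((X.n 0 : ℝ) * K ^ 2 + (X.n 1 : ℝ) * L ^ 2)
  have a0 : 0 ≤ (X.n 0 : ℝ) * K ^ 2 := by positivity
  have a1 : 0 ≤ (X.n 1 : ℝ) * L ^ 2 := by positivity
  refine ⟨N, fun C hC hG => ⟨fun z hz => H0 X (fun m => (hV C hC m).van) z hz, ?_, ?_⟩⟩
  · intro z hz
    obtain ⟨y, hy, hyn⟩ := H1K X C (hV C hC) hG z hz
    exact ⟨y, hy, nsq_le_of_norm_le y z (by linarith) hyn⟩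
  · intro z hz
    obtain ⟨y, hy, hyn⟩ := hL2 C (hV C hC) hG z hz
    exact ⟨y, hy, nsq_le_of_norm_le y z (by linarith) hyn⟩

/-! ### expansion and flows -/

lemma cobd_cobd [MulAction G Z] (X : FinRes G) (i : ℕ) (y : Fin (X.n i) → (Z →₀ ℤ)) :
    cobdZ X Z (i + 1) (cobdZ X Z i y) = 0 := by
  have h1 := act_hat (G := G) (X.d i) y
  have h2 := act_hat (G := G) (X.d (i + 1)) (cobdZ X Z i y)
  have h3 : act ((X.d (i + 1)).map (LL (triv G Z))) (act ((X.d i).map (LL (triv G Z)))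
      (fun j => hat (y j))) = 0 := by
    rw [← act_mul, ← Matrix.map_mul, d_mul_d]
    funext i
    simp [act]
  funext k
  apply hat_injective
  have h4 : hat (cobdZ X Z (i + 1) (cobdZ X Z i y) k) =
      act ((X.d (i + 1)).map (LL (triv G Z))) (fun j => hat (cobdZ X Z i y j)) k :=
    (congrFun h2 k).symm
  have h5 : (fun j => hat (cobdZ X Z i y j)) =
      act ((X.d i).map (LL (triv G Z))) (fun j => hat (y j)) := h1.symm
  rw [h4, h5, h3]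
  exact hat_zero.symm

lemma abs_pair_le {k : ℕ} (y : Fin k → (Z →₀ ℤ)) (φ : Fin k → Z → ℝ) (hφ : ∀ j q, |φ j q| ≤ 1) :
    |pair y φ| ≤ ((nsq y : ℤ) : ℝ) := by
  rw [pair, nsq, Int.cast_sum]
  refine (Finset.abs_sum_le_sum_abs _ _).trans (Finset.sum_le_sum fun j _ => ?_)
  rw [Finsupp.sum, Finsupp.sum, Int.cast_sum]
  refine (Finset.abs_sum_le_sum_abs _ _).trans (Finset.sum_le_sum fun q _ => ?_)
  rw [abs_mul]
  have h1 : |((y j q : ℤ) : ℝ)| * |φ j q| ≤ |((y j q : ℤ) : ℝ)| * 1 :=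
    mul_le_mul_of_nonneg_left (hφ j q) (abs_nonneg _)
  refine h1.trans ?_
  rw [mul_one]
  have h2 : |(y j q)| ≤ (y j q) ^ 2 := by
    have := Int.natAbs_le_self_sq (y j q)
    rw [Int.abs_eq_natAbs]
    exact this
  exact_mod_cast h2

lemma pair_add {k : ℕ} (y z : Fin k → (Z →₀ ℤ)) (φ : Fin k → Z → ℝ) :
    pair (y + z) φ = pair y φ + pair z φ := by
  rw [pair, pair, pair, ← Finset.sum_add_distrib]
  refine Finset.sum_congr rfl fun j _ => ?_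
  exact Finsupp.sum_add_index' (by simp) (by intro a b c; push_cast; ring)

theorem flow (X : FinRes G) (hs : ∀ i ≤ 2, Subsingleton (X.homology (toRed G) i)) :
    ∃ N : ℕ, ∀ C : Subgroup G, IsAmenable C → Infinite (G ⧸ C) →
      (∀ θ : Fin (X.n 0) → (G ⧸ C →₀ ℤ), nsq θ ≤ N * nsq (cobdZ X (G ⧸ C) 0 θ)) ∧
      (∀ θ : Fin (X.n 1) → (G ⧸ C →₀ ℤ), ∃ f : Fin (X.n 0) → (G ⧸ C →₀ ℤ),
        nsq (θ - cobdZ X (G ⧸ C) 0 f) ≤ N * nsq (cobdZ X (G ⧸ C) 1 θ)) ∧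
      (∀ (θ : Fin (X.n 1) → (G ⧸ C →₀ ℤ)) (φ : Fin (X.n 1) → G ⧸ C → ℝ),
        (∀ j q, |φ j q| ≤ 1) → (∀ f, pair (cobdZ X (G ⧸ C) 0 f) φ = 0) →
        |pair θ φ| ≤ N * nsq (cobdZ X (G ⧸ C) 1 θ)) := by
  obtain ⟨N, hN⟩ := iso X hs
  have key : ∀ C : Subgroup G, IsAmenable C → Infinite (G ⧸ C) →
      ∀ θ : Fin (X.n 1) → (G ⧸ C →₀ ℤ), ∃ f : Fin (X.n 0) → (G ⧸ C →₀ ℤ),
        nsq (θ - cobdZ X (G ⧸ C) 0 f) ≤ N * nsq (cobdZ X (G ⧸ C) 1 θ) := by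
    intro C hC hG θ
    obtain ⟨h0, h1, h2⟩ := hN C hC hG
    obtain ⟨y, hy, hyn⟩ := h2 (cobdZ X (G ⧸ C) 1 θ) (cobd_cobd X 1 θ)
    obtain ⟨f, hf, -⟩ := h1 (θ - y) (by rw [map_sub, hy, sub_self])
    refine ⟨f, ?_⟩
    rw [hf, sub_sub_cancel]
    exact hyn
  refine ⟨N, fun C hC hG => ⟨?_, key C hC hG, ?_⟩⟩
  · intro θ
    obtain ⟨h0, h1, h2⟩ := hN C hC hG
    obtain ⟨y, hy, hyn⟩ := h1 (cobdZ X (G ⧸ C) 0 θ) (cobd_cobd X 0 θ)
    have : θ = y := by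
      rw [← sub_eq_zero]
      exact h0 _ (by rw [map_sub, hy, sub_self])
    rw [← this] at hyn
    exact hyn
  · intro θ φ hφ hcyc
    obtain ⟨f, hf⟩ := key C hC hG θ
    have h1 : pair θ φ = pair (θ - cobdZ X (G ⧸ C) 0 f) φ := by
      have h2 := pair_add (θ - cobdZ X (G ⧸ C) 0 f) (cobdZ X (G ⧸ C) 0 f) φ
      rw [sub_add_cancel, hcyc f, add_zero] at h2
      exact h2
    rw [h1]
    refine (abs_pair_le _ φ hφ).trans ?_
    exact_mod_cast hf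

/-- **Main theorem.** -/
theorem main (X : FinRes G) :
    (∃ i ≤ 2, Nontrivial (X.homology (toRed G) i)) ∨
    ∃ N : ℕ, ∀ C : Subgroup G, IsAmenable C → Infinite (G ⧸ C) →
      (∀ z, IsCocycle X (G ⧸ C) 0 z → ∀ j, z j = 0) ∧
      IsoZ X (G ⧸ C) N 0 ∧ IsoZ X (G ⧸ C) N 1 ∧ FlowZ X (G ⧸ C) N := by
  by_cases h : ∃ i ≤ 2, Nontrivial (X.homology (toRed G) i)
  · exact Or.inl h
  · right
    push Not at h
    have hs : ∀ i ≤ 2, Subsingleton (X.homology (toRed G) i) := fun i hi => h i hi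
    obtain ⟨N1, h1⟩ := iso X hs
    obtain ⟨N2, h2⟩ := flow X hs
    have hle : ∀ {a b : ℤ} (N M : ℕ), N ≤ M → 0 ≤ b → a ≤ N * b → a ≤ M * b := by
      intro a b N M hNM hb h
      refine h.trans (mul_le_mul_of_nonneg_right ?_ hb)
      exact_mod_cast hNM
    refine ⟨max N1 N2, fun C hC hG => ?_⟩
    obtain ⟨a0, a1, a2⟩ := h1 C hC hG
    obtain ⟨-, -, b2⟩ := h2 C hC hG
    refine ⟨fun z hz => congrFun (a0 z (funext hz)), ?_, ?_, ?_⟩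
    · intro z hz
      obtain ⟨y, hy, hyn⟩ := a1 z (funext hz)
      exact ⟨y, congrFun hy, hle _ _ (le_max_left _ _) (nsq_nonneg _) hyn⟩
    · intro z hz
      obtain ⟨y, hy, hyn⟩ := a2 z (funext hz)
      exact ⟨y, congrFun hy, hle _ _ (le_max_left _ _) (nsq_nonneg _) hyn⟩
    · intro θ φ hφ hcyc
      refine (b2 θ φ hφ hcyc).trans ?_
      have h3 : (0 : ℝ) ≤ ((nsq (cobdZ X (G ⧸ C) 1 θ) : ℤ) : ℝ) := by
        exact_mod_cast nsq_nonneg _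
      refine mul_le_mul_of_nonneg_right ?_ h3
      exact_mod_cast le_max_right N1 N2

end

end Pool.Agent.W5h87.ZInt
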